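import Mathlib

open Set
open scoped InnerProductSpace

namespace Pool.Agent.Results.MP_177738_an.BoundedPareto

/-- Euclidean space. -/
abbrev E (n : ℕ) := EuclideanSpace ℝ (Fin n)

/-- Pareto solution set: `F(x)(x-y) ∉ C \ {0}` for all `y ∈ K`. -/
def Sol {n m : ℕ} (F : Fin m → E n → E n) (K : Set (E n)) : Set (E n) :=
  {x | x ∈ K ∧ ∀ y ∈ K, ¬ ((∀ l, 0 ≤ ⟪F l x, x - y⟫_ℝ) ∧ ∃ l, ⟪F l x, x - y⟫_ℝ ≠ 0)}

/-- Each `F l` is monotone on `K`. -/
def Mono {n m : ℕ} (F : Fin m → E n → E n) (K : Set (E n)) : Prop :=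
  ∀ l, ∀ x ∈ K, ∀ y ∈ K, 0 ≤ ⟪F l y - F l x, y - x⟫_ℝ

def K : Set (E 4) := {x | x 0 ^ 2 + x 1 ^ 2 ≤ 1}

noncomputable def F : Fin 2 → E 4 → E 4 := fun l x =>
  if l = 0 then !₂[-x 3, 1, 0, x 0] else !₂[1, 0, -x 3, x 2]

lemma in0 (x v : E 4) : ⟪F 0 x, v⟫_ℝ = -x 3 * v 0 + v 1 + x 0 * v 3 := by
  simp [F, PiLp.inner_apply, Fin.sum_univ_four]; ring

lemma in1 (x v : E 4) : ⟪F 1 x, v⟫_ℝ = v 0 - x 3 * v 2 + x 2 * v 3 := by
  simp [F, PiLp.inner_apply, Fin.sum_univ_four]; ring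

lemma convK : Convex ℝ K := by
  intro x hx y hy a b ha hb hab
  simp only [K, mem_ofPred_eq, PiLp.add_apply, PiLp.smul_apply, smul_eq_mul] at *
  have e : b = 1 - a := by linarith
  subst e
  nlinarith [mul_nonneg (mul_nonneg ha hb) (sq_nonneg (x 0 - y 0)),
    mul_nonneg (mul_nonneg ha hb) (sq_nonneg (x 1 - y 1)),
    mul_le_mul_of_nonneg_left hx ha, mul_le_mul_of_nonneg_left hy hb]

lemma closedK : IsClosed K := isClosed_le (by fun_prop) continuous_const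

lemma contF (l : Fin 2) : Continuous (F l) := by
  unfold F
  split_ifs
  · refine (PiLp.continuous_toLp 2 _).comp (continuous_pi fun i => ?_)
    fin_cases i <;> simp <;> fun_prop
  · refine (PiLp.continuous_toLp 2 _).comp (continuous_pi fun i => ?_)
    fin_cases i <;> simp <;> fun_prop

lemma monoF : Mono F K := by
  unfold Mono
  rw [Fin.forall_fin_two]
  constructor <;> intro x _ y _ <;> rw [inner_sub_left]
  · rw [in0, in0]; simp; nlinarith
  · rw [in1, in1]; simp; nlinarith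

lemma use {x : E 4} (hx : x ∈ Sol F K) (s t α β : ℝ) (hst : s ^ 2 + t ^ 2 ≤ 1)
    (h0 : 0 ≤ -x 3 * (x 0 - s) + (x 1 - t) + x 0 * β)
    (h1 : 0 ≤ (x 0 - s) - x 3 * α + x 2 * β) :
    -x 3 * (x 0 - s) + (x 1 - t) + x 0 * β = 0 ∧ (x 0 - s) - x 3 * α + x 2 * β = 0 := by
  have := hx.2 !₂[s, t, x 2 - α, x 3 - β] (by simpa [K] using hst)
  rw [Fin.forall_fin_two, Fin.exists_fin_two, in0, in1] at this
  simp only [PiLp.sub_apply] at this
  simp at this
  simp only [neg_mul] at *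
  exact this (by linarith) (by linarith)

lemma struct {x : E 4} (hx : x ∈ Sol F K) :
    x 3 = 0 ∧ (x 1 + x 2 = 0 ∨ (x 2 = 0 ∧ x 1 = -1)) := by
  have hK : x 0 ^ 2 + x 1 ^ 2 ≤ 1 := hx.1
  have r0 : x 3 = 0 := by
    have := (use hx (x 0) (x 1) (-x 3) 0 hK (by simp) (by simp; exact mul_self_nonneg _)).2
    simpa using this
  refine ⟨r0, ?_⟩
  by_cases hs : x 0 = 0
  · right
    have z0 : x 2 = 0 := by
      have := (use hx (x 0) (x 1) 0 (x 2) hK (by simp [hs]) (by simp; exact mul_self_nonneg _)).2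
      simpa using this
    refine ⟨z0, ?_⟩
    have := (use hx 0 (-1) 0 0 (by norm_num) (by simp [r0]; nlinarith) (by simp [hs])).1
    simp [r0] at this
    linarith
  · left
    set l := -x 2 / x 0 with hl
    have hz : x 2 = -l * x 0 := by rw [hl]; field_simp
    have key : ∀ s t : ℝ, s ^ 2 + t ^ 2 ≤ 1 → x 0 + l * x 1 ≤ s + l * t := by
      intro s t hst
      by_contra hc
      push Not at hc
      have e : x 2 * ((t - x 1) / x 0) = l * (x 1 - t) := by rw [hz]; field_simp; ring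
      have := (use hx s t 0 ((t - x 1) / x 0) hst (by rw [r0]; field_simp; simp)
        (by rw [e]; nlinarith)).2
      rw [e] at this
      nlinarith
    set ρ := √(1 + l ^ 2) with hρ
    have ρ0 : 0 < ρ := Real.sqrt_pos.2 (by positivity)
    have ρ2 : ρ ^ 2 = 1 + l ^ 2 := Real.sq_sqrt (by positivity)
    have k := key (-1 / ρ) (-l / ρ) (by field_simp; linarith)
    have e : -1 / ρ + l * (-l / ρ) = -ρ := by field_simp; linarith
    rw [e] at k
    have k2 : ρ ^ 2 ≤ (x 0 + l * x 1) ^ 2 := by nlinarith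
    have k3 : (x 1 - l * x 0) ^ 2 ≤ 0 := by
      nlinarith [mul_le_mul_of_nonneg_left hK (show 0 ≤ 1 + l ^ 2 by positivity)]
    have k4 : x 1 - l * x 0 = 0 := by nlinarith [sq_nonneg (x 1 - l * x 0)]
    linarith

lemma b_mem : (!₂[0, -1, 0, 0] : E 4) ∈ Sol F K := by
  refine ⟨by simp [K], fun y hy => ?_⟩
  have hy' : y 0 ^ 2 + y 1 ^ 2 ≤ 1 := hy
  rw [Fin.forall_fin_two, Fin.exists_fin_two, in0, in1]
  simp
  intro h0 h1
  constructor <;> nlinarith [sq_nonneg (y 0), sq_nonneg (y 1 + 1)]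

lemma a_mem : (!₂[-3 / 5, -4 / 5, 4 / 5, 0] : E 4) ∈ Sol F K := by
  refine ⟨by simp [K]; norm_num, fun y hy => ?_⟩
  have hy' : y 0 ^ 2 + y 1 ^ 2 ≤ 1 := hy
  rw [Fin.forall_fin_two, Fin.exists_fin_two, in0, in1]
  simp
  intro h0 h1
  constructor <;> nlinarith [sq_nonneg (y 0 + 3 / 5), sq_nonneg (y 1 + 4 / 5)]

theorem result : ∃ (K : Set (E 4)) (F : Fin 2 → E 4 → E 4),
    K.Nonempty ∧ IsClosed K ∧ Convex ℝ K ∧ (∀ l, Continuous (F l)) ∧ Mono F K ∧
    ¬ IsPreconnected (Sol F K) ∧ Bornology.IsBounded (Sol F K) := by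
  refine ⟨K, F, ⟨_, b_mem.1⟩, closedK, convK, contF, monoF, fun h => ?_, ?_⟩
  · have c : Continuous fun x : E 4 => x 1 + x 2 := by fun_prop
    obtain ⟨x, hx, e⟩ := h.intermediate_value b_mem a_mem c.continuousOn
      (show (-1 / 2 : ℝ) ∈ _ by simp; norm_num)
    simp only at e
    rcases (struct hx).2 with h | h
    · linarith
    · linarith [h.1, h.2]
  · refine isBounded_iff_forall_norm_le.2 ⟨2, fun x hx => ?_⟩
    have hK : x 0 ^ 2 + x 1 ^ 2 ≤ 1 := hx.1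
    obtain ⟨r0, h⟩ := struct hx
    rw [EuclideanSpace.norm_eq, Real.sqrt_le_iff]
    refine ⟨by norm_num, ?_⟩
    simp only [Fin.sum_univ_four, Real.norm_eq_abs, sq_abs, r0]
    rcases h with h | h
    · have : x 2 = -x 1 := by linarith
      rw [this]; nlinarith [sq_nonneg (x 0)]
    · rw [h.1]; nlinarith

end Pool.Agent.Results.MP_177738_an.BoundedPareto
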